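import Pool.Agent.Y696.CTK.Stm

/-!
# Local indices of `y² + D y = x³` (jobs CTK-TG, CTK-TD, CTK-T3 of project CTK)

Adapted from `Pool.Agent.Y145.CT.Tam`.
-/

set_option autoImplicit false

open scoped Classical

namespace Pool.Agent.Y350.CTK

open WithZero
open Pool.Agent.Y696 (NonsingRed)
open Pool.Agent.Y696.CTK (ED S_TGK S_TDK S_T3K)
open WeierstrassCurve.Affine (Point)

section val

variable {L : Type} [Field L] {v : Valuation L ℤᵐ⁰}

theorem lt_exp_iff {a : ℤᵐ⁰} {k : ℤ} : a < exp (k + 1) ↔ a ≤ exp k := by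
  rw [exp_add]
  exact lt_mul_exp_iff_le exp_ne_zero

theorem lt_one_iff {a : ℤᵐ⁰} : a < 1 ↔ a ≤ exp (-1 : ℤ) := by
  rw [← lt_exp_iff]
  simp

theorem m1l {a b : ℤᵐ⁰} (ha : a ≤ 1) (hb : b < 1) : a * b < 1 :=
  lt_of_le_of_lt ((mul_le_mul' ha le_rfl).trans (one_mul b).le) hb

theorem m2l {a b : ℤᵐ⁰} (ha : a < 1) (hb : b ≤ 1) : a * b < 1 := by
  rw [mul_comm]
  exact m1l hb ha

theorem vmul {x y : L} {a b : ℤ} (hx : v x ≤ exp a) (hy : v y ≤ exp b) :
    v (x * y) ≤ exp (a + b) := by
  rw [map_mul, exp_add]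
  exact mul_le_mul' hx hy

theorem vpow {x : L} {a : ℤ} (hx : v x ≤ exp a) (n : ℕ) : v (x ^ n) ≤ exp ((n : ℤ) * a) := by
  induction n with
  | zero => simp
  | succ n ih =>
    rw [pow_succ]
    refine (vmul ih hx).trans (le_of_eq ?_)
    congr 1
    push_cast
    ring

theorem vle {x : L} {a b : ℤ} (hx : v x ≤ exp a) (h : a ≤ b) : v x ≤ exp b :=
  hx.trans (exp_le_exp.2 h)

theorem vadd {x y : L} {a : ℤᵐ⁰} (hx : v x ≤ a) (hy : v y ≤ a) : v (x + y) ≤ a :=
  v.map_add_le hx hy

theorem vsub {x y : L} {a : ℤᵐ⁰} (hx : v x ≤ a) (hy : v y ≤ a) : v (x - y) ≤ a :=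
  v.map_sub_le hx hy

theorem vaddl {x y : L} {a : ℤᵐ⁰} (hx : v x < a) (hy : v y < a) : v (x + y) < a :=
  v.map_add_lt hx hy

theorem vsubl {x y : L} {a : ℤᵐ⁰} (hx : v x < a) (hy : v y < a) : v (x - y) < a := by
  rw [sub_eq_add_neg]
  exact v.map_add_lt hx (by rwa [Valuation.map_neg])

theorem sq_le {x : L} {a b : ℤ} (h : v (x ^ 2) ≤ exp a) (hab : a < 2 * (b + 1)) :
    v x ≤ exp b := by
  rcases eq_or_ne x 0 with rfl | hx
  · simp
  have h0 : v x ≠ 0 := (Valuation.ne_zero_iff v).2 hx
  rw [map_pow, ← log_le_iff_le_exp (pow_ne_zero 2 h0), log_pow, nsmul_eq_mul] at h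
  rw [← log_le_iff_le_exp h0]
  push_cast at h
  omega

theorem div_ge {a b : L} {k : ℤ} (ha : v a = exp k) (hb : v b ≤ exp k) (hb0 : b ≠ 0) :
    1 ≤ v (a / b) := by
  have h0 : v b ≠ 0 := (Valuation.ne_zero_iff v).2 hb0
  rw [map_div₀, ha, le_div_iff₀ (zero_lt_iff.2 h0), one_mul]
  exact hb

end val

section pts

variable {L : Type} [Field L] {D : L}

/-- `P` is the affine point `(x, y)` -/
def At (P : (ED D).toAffine.Point) (x y : L) : Prop := ∃ h, P = Point.some x y h

theorem At.eqn {P : (ED D).toAffine.Point} {x y : L} (h : At P x y) : y ^ 2 + D * y = x ^ 3 := by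
  obtain ⟨hn, -⟩ := h
  have h1 := (WeierstrassCurve.Affine.equation_iff _ _).1 hn.1
  simp only [ED] at h1
  linear_combination h1

theorem exists_at {P : (ED D).toAffine.Point} (h : P ≠ 0) : ∃ x y, At P x y := by
  rcases P with _ | ⟨x, y, hn⟩
  · exact absurd rfl h
  · exact ⟨x, y, hn, rfl⟩

theorem At.ext {P P' : (ED D).toAffine.Point} {x y : L} (h : At P x y) (h' : At P' x y) :
    P = P' := by
  obtain ⟨hn, rfl⟩ := h
  obtain ⟨hn', rfl⟩ := h'
  rfl

theorem At.neg {P : (ED D).toAffine.Point} {x y : L} (h : At P x y) : At (-P) x (-y - D) := by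
  obtain ⟨hn, rfl⟩ := h
  rw [Point.neg_some]
  have e : (ED D).toAffine.negY x y = -y - D := by
    rw [WeierstrassCurve.Affine.negY]
    simp only [ED]
    ring
  have hn2 := (WeierstrassCurve.Affine.nonsingular_neg _ _).2 hn
  rw [e] at hn2
  refine ⟨hn2, ?_⟩
  congr 1

theorem At.add {P P' : (ED D).toAffine.Point} {x y x' y' : L} (h : At P x y) (h' : At P' x' y')
    (hne : x ≠ x') : ∃ y3, At (P + P') (((y - y') / (x - x')) ^ 2 - x - x') y3 := by
  obtain ⟨hn, rfl⟩ := h
  obtain ⟨hn', rfl⟩ := h'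
  rw [Point.add_of_X_ne hne]
  have e : (ED D).toAffine.addX x x' ((ED D).toAffine.slope x x' y y') =
      ((y - y') / (x - x')) ^ 2 - x - x' := by
    rw [WeierstrassCurve.Affine.addX, WeierstrassCurve.Affine.slope_of_X_ne hne]
    simp only [ED]
    ring
  rw [← e]
  exact ⟨_, _, rfl⟩

theorem At.dbl {P : (ED D).toAffine.Point} {x y : L} (h : At P x y) (hy : 2 * y + D ≠ 0) :
    ∃ y3, At (P + P) ((3 * x ^ 2 / (2 * y + D)) ^ 2 - x - x) y3 := by
  obtain ⟨hn, rfl⟩ := h
  have hy' : y ≠ (ED D).toAffine.negY x y := by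
    rw [WeierstrassCurve.Affine.negY]
    simp only [ED]
    intro h
    apply hy
    linear_combination h
  rw [Point.add_self_of_Y_ne hy']
  have e : (ED D).toAffine.addX x x ((ED D).toAffine.slope x x y y) =
      (3 * x ^ 2 / (2 * y + D)) ^ 2 - x - x := by
    rw [WeierstrassCurve.Affine.addX, WeierstrassCurve.Affine.slope_of_Y_ne rfl hy',
      WeierstrassCurve.Affine.negY]
    simp only [ED]
    have h2 : y - (-y - 0 * x - D) = 2 * y + D := by ring
    rw [h2]
    ring
  rw [← e]
  exact ⟨_, _, rfl⟩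

variable {v : Valuation L ℤᵐ⁰} {H : AddSubgroup (ED D).toAffine.Point}

theorem nsr_iff {P : (ED D).toAffine.Point} {x y : L} (h : At P x y) :
    NonsingRed v (ED D) P ↔ 1 ≤ v (2 * y + D) ∨ 1 ≤ v (3 * x ^ 2) := by
  obtain ⟨hn, rfl⟩ := h
  change (1 ≤ v (2 * y + 0 * x + D) ∨ 1 ≤ v (3 * x ^ 2 + 2 * 0 * x + 0 - 0 * y)) ↔ _
  rw [zero_mul, zero_mul, mul_zero, zero_mul, add_zero, add_zero, add_zero, sub_zero]

theorem not_mem_iff (hH : ∀ P, P ∈ H ↔ NonsingRed v (ED D) P) {P : (ED D).toAffine.Point} {x y : L}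
    (h : At P x y) : P ∉ H ↔ v (2 * y + D) < 1 ∧ v (3 * x ^ 2) < 1 := by
  rw [hH, nsr_iff h, not_or, not_le, not_le]

theorem not_mem_at {P : (ED D).toAffine.Point} (hP : P ∉ H) : ∃ x y, At P x y :=
  exists_at fun h0 => hP (by rw [h0]; exact zero_mem _)

end pts

/-! ### Good reduction -/

theorem tg : S_TGK := by
  intro L _ v D h3 hD P
  rcases P with _ | ⟨x, y, hn⟩
  · exact trivial
  have hA : At (Point.some x y hn) x y := ⟨hn, rfl⟩
  rw [nsr_iff hA]
  by_contra hc
  rw [not_or, not_le, not_le] at hc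
  obtain ⟨h1, h2⟩ := hc
  rw [map_mul, h3, one_mul, map_pow] at h2
  have hx : v x < 1 := by
    by_contra h
    exact absurd h2 (not_lt.2 (one_le_pow₀ (not_lt.1 h)))
  have e : D ^ 2 = (2 * y + D) ^ 2 - 4 * x ^ 3 := by
    have := hA.eqn
    linear_combination -4 * this
  have h4 : v (4 : L) ≤ 1 := by
    have : (4 : L) = 3 + 1 := by norm_num
    rw [this]
    exact vadd h3.le (by rw [map_one])
  have h5 : v (D ^ 2) < 1 := by
    rw [e]
    refine vsubl ?_ ?_
    · rw [map_pow]
      exact pow_lt_one₀ zero_le' h1 (by norm_num)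
    · rw [map_mul, map_pow]
      exact m1l h4 (pow_lt_one₀ zero_le' hx (by norm_num))
  rw [map_pow, hD, one_pow] at h5
  exact lt_irrefl _ h5

/-! ### The primes dividing `D` -/

section td

variable {L : Type} [Field L] {v : Valuation L ℤᵐ⁰} {D : L}

/-- the heart of the matter at the primes dividing `D` -/
theorem trans_val {x y : L} (hd : v D = exp (-1 : ℤ)) (hx : x ≠ 0) (hxl : v x < 1)
    (he : y ^ 2 + D * y = x ^ 3) : 1 ≤ v (D * (y + D) / x ^ 2) ∨ 1 ≤ v (D * y / x ^ 2) := by
  have hD0 : D ≠ 0 := by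
    rintro rfl
    rw [map_zero] at hd
    exact exp_ne_zero hd.symm
  have he' : y * (y + D) = x ^ 3 := by rw [← he]; ring
  have hx3 : x ^ 3 ≠ 0 := pow_ne_zero 3 hx
  have hy : y ≠ 0 := by
    rintro rfl
    apply hx3
    rw [← he', zero_mul]
  have hyd : y + D ≠ 0 := by
    intro h
    apply hx3
    rw [← he', h, mul_zero]
  have hx2 : x ^ 2 ≠ 0 := pow_ne_zero 2 hx
  have nz : ∀ {z : L}, z ≠ 0 → v z ≠ 0 := fun h => (Valuation.ne_zero_iff v).2 h
  have g1 : ∀ {z : L}, z ≠ 0 → (1 ≤ v z ↔ 0 ≤ log (v z)) := by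
    intro z hz
    rw [← log_one, log_le_log one_ne_zero (nz hz)]
  have vx : log (v x) < 0 := by
    rw [← log_one, log_lt_log (nz hx) one_ne_zero]
    exact hxl
  have vD : log (v D) = -1 := by rw [hd, log_exp]
  have v1 : log (v y) + log (v (y + D)) = 3 * log (v x) := by
    rw [← log_mul (nz hy) (nz hyd), ← map_mul, he', map_pow, log_pow, nsmul_eq_mul]
    norm_num
  have v2 : log (v (D * (y + D) / x ^ 2)) = -1 + log (v (y + D)) - 2 * log (v x) := by
    rw [div_eq_mul_inv, map_mul, map_mul, map_inv₀, map_pow,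
      log_mul (mul_ne_zero (nz hD0) (nz hyd)) (inv_ne_zero (pow_ne_zero 2 (nz hx))),
      log_mul (nz hD0) (nz hyd), log_inv, log_pow, vD, nsmul_eq_mul]
    push_cast
    ring
  have v3 : log (v (D * y / x ^ 2)) = -1 + log (v y) - 2 * log (v x) := by
    rw [div_eq_mul_inv, map_mul, map_mul, map_inv₀, map_pow,
      log_mul (mul_ne_zero (nz hD0) (nz hy)) (inv_ne_zero (pow_ne_zero 2 (nz hx))),
      log_mul (nz hD0) (nz hy), log_inv, log_pow, vD, nsmul_eq_mul]
    push_cast
    ring
  have la : ∀ {a b : L}, a ≠ 0 → b ≠ 0 → a + b ≠ 0 →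
      log (v (a + b)) ≤ log (v a) ∨ log (v (a + b)) ≤ log (v b) := by
    intro a b ha hb hab
    have h := v.map_add a b
    rcases le_max_iff.1 h with h1 | h1
    · exact Or.inl ((log_le_log (nz hab) (nz ha)).2 h1)
    · exact Or.inr ((log_le_log (nz hab) (nz hb)).2 h1)
  have u1 := la hy hD0 hyd
  have u2 : log (v y) ≤ log (v (y + D)) ∨ log (v y) ≤ log (v D) := by
    have e : (y + D) + -D = y := by ring
    have h := la hyd (neg_ne_zero.2 hD0) (by rw [e]; exact hy)
    rwa [e, Valuation.map_neg] at h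
  have u3 : log (v D) ≤ log (v (y + D)) ∨ log (v D) ≤ log (v y) := by
    have e : (y + D) + -y = D := by ring
    have h := la hyd (neg_ne_zero.2 hy) (by rw [e]; exact hD0)
    rwa [e, Valuation.map_neg] at h
  rw [g1 (div_ne_zero (mul_ne_zero hD0 hyd) hx2), g1 (div_ne_zero (mul_ne_zero hD0 hy) hx2),
    v2, v3]
  rw [vD] at u1 u2 u3
  omega

/-- index from a generator of the quotient -/
theorem index_of_gen {G : Type} [AddCommGroup G] (H : AddSubgroup G) (T : G) (n : ℕ)
    (hn : n.Prime) (hT : T ∉ H) (hnT : n • T ∈ H) (hgen : ∀ P : G, ∃ k : ℤ, P - k • T ∈ H) :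
    H.index = n := by
  have hfact : Fact n.Prime := ⟨hn⟩
  have h1 : addOrderOf (QuotientAddGroup.mk T : G ⧸ H) = n := by
    refine addOrderOf_eq_prime ?_ ?_
    · rw [← QuotientAddGroup.mk_nsmul]
      exact (QuotientAddGroup.eq_zero_iff _).2 hnT
    · intro h
      exact hT ((QuotientAddGroup.eq_zero_iff _).1 h)
  rw [AddSubgroup.index, ← h1]
  symm
  refine addOrderOf_eq_card_of_forall_mem_zmultiples fun q => ?_
  obtain ⟨P, rfl⟩ := QuotientAddGroup.mk_surjective q
  obtain ⟨k, hk⟩ := hgen P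
  refine ⟨k, ?_⟩
  have h2 := (QuotientAddGroup.eq_zero_iff (P - k • T)).2 hk
  simp only
  rw [QuotientAddGroup.mk_sub, sub_eq_zero] at h2
  rw [h2, QuotientAddGroup.mk_zsmul]

theorem exists_T (hD : D ≠ 0) : ∃ T : (ED D).toAffine.Point, At T 0 0 := by
  have hn : (ED D).toAffine.Nonsingular (0 : L) 0 := by
    rw [WeierstrassCurve.Affine.nonsingular_iff', WeierstrassCurve.Affine.equation_iff]
    simp only [ED]
    refine ⟨by ring, Or.inr ?_⟩
    have h2 : (2 : L) * 0 + 0 * 0 + D = D := by ring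
    rw [h2]
    exact hD
  exact ⟨Point.some _ _ hn, hn, rfl⟩

theorem T_add_T (hD : D ≠ 0) {T : (ED D).toAffine.Point} (hT : At T 0 0) : T + T = -T := by
  have h2 : (2 : L) * 0 + D ≠ 0 := by rwa [mul_zero, zero_add]
  obtain ⟨y3, h3⟩ := hT.dbl h2
  have e0 : ((3 : L) * 0 ^ 2 / (2 * 0 + D)) ^ 2 - 0 - 0 = 0 := by
    simp
  rw [e0] at h3
  have e1 : y3 * (y3 + D) = 0 := by
    have := h3.eqn
    linear_combination this
  rcases mul_eq_zero.1 e1 with h | h
  · rw [h] at h3
    exfalso
    have h4 : T + T = T := h3.ext hT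
    have h5 : T = 0 := by simpa using h4
    rw [h5] at hT
    obtain ⟨hn, h6⟩ := hT
    exact absurd h6.symm (Point.some_ne_zero _)
  · have h4 : y3 = -0 - D := by linear_combination h
    rw [h4] at h3
    exact h3.ext hT.neg

end td

theorem td : S_TDK := by
  intro L _ v D h3 hvD H hH
  have hD0 : D ≠ 0 := by
    rintro rfl
    rw [map_zero] at hvD
    exact exp_ne_zero hvD.symm
  have hD1 : v D < 1 := by rw [hvD]; exact lt_one_iff.2 le_rfl
  have h2 : v (2 : L) ≤ 1 := by
    have : (2 : L) = 3 - 1 := by norm_num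
    rw [this]
    exact vsub h3.le (by rw [map_one])
  have hmem : ∀ {P : (ED D).toAffine.Point} {x y : L}, At P x y → (P ∉ H ↔ v x < 1) := by
    intro P x y h
    rw [not_mem_iff hH h]
    have he := h.eqn
    constructor
    · rintro ⟨-, h4⟩
      rw [map_mul, h3, one_mul, map_pow] at h4
      by_contra hc
      exact absurd h4 (not_lt.2 (one_le_pow₀ (not_lt.1 hc)))
    · intro hx
      have hy : v y < 1 := by
        by_contra hc
        rw [not_lt] at hc
        have h4 : v (D * y) < v (y ^ 2) := by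
          rw [map_mul, map_pow, sq]
          have h5 : v y ≠ 0 := fun h0 => by rw [h0] at hc; exact absurd hc (by simp)
          exact mul_lt_mul_of_pos_right (hD1.trans_le hc) (zero_lt_iff.2 h5)
        have h5 := Valuation.map_add_eq_of_lt_right v h4
        rw [add_comm, he, map_pow, map_pow] at h5
        have h6 : v x ^ 3 < 1 := pow_lt_one₀ zero_le' hx (by norm_num)
        rw [h5] at h6
        exact absurd h6 (not_lt.2 (one_le_pow₀ hc))
      refine ⟨vaddl ?_ hD1, ?_⟩
      · rw [map_mul]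
        exact m1l h2 hy
      · rw [map_mul, h3, one_mul, map_pow]
        exact pow_lt_one₀ zero_le' hx (by norm_num)
  obtain ⟨T, hT⟩ := exists_T (D := D) hD0
  have hTn := hT.neg
  have hTT := T_add_T hD0 hT
  refine index_of_gen _ T 3 Nat.prime_three ?_ ?_ ?_
  · rw [hmem hT, map_zero]
    exact zero_lt_one
  · have : 3 • T = T + T + T := by abel
    rw [this, hTT, neg_add_cancel]
    exact zero_mem _
  · intro P
    by_cases hP : P ∈ H
    · exact ⟨0, by simpa using hP⟩
    obtain ⟨x, y, hA⟩ := not_mem_at hP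
    have hx := (hmem hA).1 hP
    by_cases hx0 : x = 0
    · subst hx0
      have e1 : y * (y + D) = 0 := by
        have := hA.eqn
        linear_combination this
      rcases mul_eq_zero.1 e1 with h | h
      · rw [h] at hA
        refine ⟨1, ?_⟩
        rw [one_zsmul, hA.ext hT, sub_self]
        exact zero_mem _
      · have h4 : y = -0 - D := by linear_combination h
        rw [h4] at hA
        refine ⟨-1, ?_⟩
        rw [neg_one_zsmul, hA.ext hTn, sub_self]
        exact zero_mem _
    · have hx2 : x ^ 2 ≠ 0 := pow_ne_zero 2 hx0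
      have he := hA.eqn
      rcases trans_val hvD hx0 hx he with h | h
      · refine ⟨1, ?_⟩
        rw [one_zsmul, sub_eq_add_neg]
        obtain ⟨y3, h3'⟩ := hA.add hTn hx0
        by_contra hc
        rw [hmem h3', ← not_le] at hc
        apply hc
        have e : ((y - (-0 - D)) / (x - 0)) ^ 2 - x - 0 = D * (y + D) / x ^ 2 := by
          rw [sub_zero, sub_zero, div_pow, eq_div_iff hx2, sub_mul, div_mul_cancel₀ _ hx2]
          linear_combination he
        rw [e]
        exact h
      · refine ⟨-1, ?_⟩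
        rw [neg_one_zsmul, sub_neg_eq_add]
        obtain ⟨y3, h3'⟩ := hA.add hT hx0
        by_contra hc
        rw [hmem h3', ← not_le] at hc
        apply hc
        have e : ((y - 0) / (x - 0)) ^ 2 - x - 0 = -(D * y / x ^ 2) := by
          rw [sub_zero, sub_zero, sub_zero, div_pow, ← neg_div, eq_div_iff hx2, sub_mul,
            div_mul_cancel₀ _ hx2]
          linear_combination he
        rw [e, Valuation.map_neg]
        exact h

/-! ### The prime above `3` -/

/-- a group of order at most four all of whose elements are killed by two -/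
theorem card_two {Q : Type} [AddCommGroup Q] [Finite Q] (h4 : Nat.card Q ≤ 4)
    (h2 : ∀ q : Q, q + q = 0) : Nat.card Q = 1 ∨ Nat.card Q = 2 ∨ Nat.card Q = 4 := by
  have h0 : 0 < Nat.card Q := Nat.card_pos
  have h3 : Nat.card Q ≠ 3 := by
    intro h3
    have h5 : ∀ q : Q, q = 0 := by
      intro q
      have h6 : 3 • q = 0 := by rw [← h3]; exact card_nsmul_eq_zero'
      have h7 : 3 • q = q + (q + q) := by abel
      rw [h7, h2 q, add_zero] at h6
      exact h6
    have : Subsingleton Q := ⟨fun a b => by rw [h5 a, h5 b]⟩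
    rw [Nat.card_of_subsingleton (0 : Q)] at h3
    omega
  omega

theorem t3 : S_T3K := by
  intro L _ v D θ m hθ hvθ hD hm hres H hH
  have v3 : v (3 : L) = exp (-2 : ℤ) := by
    have e : (3 : L) = -(θ ^ 2) := by rw [hθ]; ring
    rw [e, Valuation.map_neg, map_pow, hvθ]
    rfl
  have v3l : v (3 : L) < 1 := by
    rw [v3, lt_one_iff]
    exact exp_le_exp.2 (by norm_num)
  have v3e : v (3 : L) ≤ exp (-1 : ℤ) := lt_one_iff.1 v3l
  have v2 : v (2 : L) = 1 := by
    have e : (2 : L) = -1 + 3 := by norm_num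
    rw [e, Valuation.map_add_eq_of_lt_left v (by rw [Valuation.map_neg, map_one]; exact v3l),
      Valuation.map_neg, map_one]
  have v4 : v (4 : L) = 1 := by
    have e : (4 : L) = 2 * 2 := by norm_num
    rw [e, map_mul, v2, one_mul]
  have hθ0 : θ ≠ 0 := by
    rintro rfl
    rw [map_zero] at hvθ
    exact exp_ne_zero hvθ.symm
  have vm1 : v (m + 1) ≤ 1 := vadd hm.le (by rw [map_one])
  -- the points of singular reduction
  have hsing : ∀ {P : (ED D).toAffine.Point} {x y : L}, At P x y → P ∉ H →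
      v (x + 1) ≤ exp (-1 : ℤ) ∧ v (y - 1) ≤ exp (-1 : ℤ) ∧ v (2 * y + D) < 1 := by
    intro P x y hA hP
    obtain ⟨h1, h2⟩ := (not_mem_iff hH hA).1 hP
    have he := hA.eqn
    have hx : v x ≤ 1 := by
      by_contra hc
      rw [not_le] at hc
      have hx0 : v x ≠ 0 := (lt_trans zero_lt_one hc).ne'
      rw [map_mul, v3, map_pow] at h2
      have h3 : log (exp (-2 : ℤ) * v x ^ 2) < 0 := by
        rw [← log_one, log_lt_log (mul_ne_zero exp_ne_zero (pow_ne_zero 2 hx0)) one_ne_zero]
        exact h2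
      have h4 : 0 < log (v x) := by
        rw [← log_one, log_lt_log one_ne_zero hx0]
        exact hc
      rw [log_mul exp_ne_zero (pow_ne_zero 2 hx0), log_exp, log_pow, nsmul_eq_mul] at h3
      push_cast at h3
      omega
    have hc : v (x ^ 3 + 1) < 1 := by
      have e : 4 * (x ^ 3 + 1) = (2 * y + D) ^ 2 - 3 * (m * (2 + 3 * m)) + 3 := by
        rw [← he, hD]; ring
      have h3 : v (4 * (x ^ 3 + 1)) < 1 := by
        rw [e]
        refine vaddl (vsubl ?_ ?_) v3l
        · rw [map_pow]
          exact pow_lt_one₀ zero_le' h1 (by norm_num)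
        · rw [map_mul, map_mul, hm, one_mul]
          refine m2l v3l (vadd v2.le ?_)
          rw [map_mul, hm, mul_one]
          exact v3l.le
      rwa [map_mul, v4, one_mul] at h3
    have hx1 : v (x + 1) < 1 := by
      rcases hres x hx with h | h | h
      · exfalso
        have h3 : v (x ^ 3 + 1) = 1 := by
          rw [add_comm, Valuation.map_add_eq_of_lt_left v (by
            rw [map_one, map_pow]; exact pow_lt_one₀ zero_le' h (by norm_num)), map_one]
        rw [h3] at hc
        exact lt_irrefl _ hc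
      · exfalso
        have e : x ^ 3 + 1 = 2 + (x - 1) * (x ^ 2 + x + 1) := by ring
        have h4 : v ((x - 1) * (x ^ 2 + x + 1)) < v (2 : L) := by
          rw [v2, map_mul]
          refine m2l h (vadd (vadd ?_ hx) (by rw [map_one]))
          rw [map_pow]
          exact pow_le_one₀ zero_le' hx
        rw [e, Valuation.map_add_eq_of_lt_left v h4, v2] at hc
        exact lt_irrefl _ hc
      · exact h
    have hy1 : v (y - 1) < 1 := by
      have e : 2 * (y - 1) = (2 * y + D) - 3 * (m + 1) := by rw [hD]; ring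
      have h3 : v (2 * (y - 1)) < 1 := by
        rw [e]
        refine vsubl h1 ?_
        rw [map_mul]
        exact m2l v3l vm1
      rwa [map_mul, v2, one_mul] at h3
    exact ⟨lt_one_iff.1 hx1, lt_one_iff.1 hy1, h1⟩
  -- the equation for `b = y - 1`
  have heb : ∀ {P : (ED D).toAffine.Point} {x y : L}, At P x y → P ∉ H →
      v ((y - 1) ^ 2 + 3 * (m + 1)) ≤ exp (-3 : ℤ) := by
    intro P x y hA hP
    obtain ⟨h1, h2, -⟩ := hsing hA hP
    have he := hA.eqn
    have e : (y - 1) ^ 2 + 3 * (m + 1) = (x + 1) ^ 3 - 3 * (x + 1) ^ 2 + 3 * (x + 1) -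
        3 * ((m + 1) * (y - 1)) := by
      rw [hD] at he
      linear_combination he
    have hv3 := v3.le
    have vm1' : v (m + 1) ≤ exp (0 : ℤ) := by rw [exp_zero]; exact vm1
    rw [e]
    refine vsub (vadd (vsub ?_ ?_) ?_) ?_
    · exact vle (vpow h1 3) (by norm_num)
    · exact vle (vmul hv3 (vpow h1 2)) (by norm_num)
    · exact vle (vmul hv3 h1) (by norm_num)
    · exact vle (vmul hv3 (vmul vm1' h2)) (by norm_num)
  have htop : (∀ P : (ED D).toAffine.Point, P ∈ H) → H.index = 1 := by
    intro h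
    have h1 : H = ⊤ := by
      rw [eq_top_iff]
      intro P _
      exact h P
    rw [h1, AddSubgroup.index_top]
  rcases hres m hm.le with h0 | h1 | h1
  · rw [hm] at h0
    exact absurd h0 (lt_irrefl _)
  · -- `m = 1`: no points of singular reduction
    left
    apply htop
    intro P
    by_contra hP
    obtain ⟨x, y, hA⟩ := not_mem_at hP
    obtain ⟨-, hy, -⟩ := hsing hA hP
    have hb := heb hA hP
    obtain ⟨c, hc⟩ : ∃ c, y - 1 = θ * c := ⟨(y - 1) / θ, by rw [mul_div_cancel₀ _ hθ0]⟩
    have hvc : v c ≤ 1 := by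
      have h2 : v θ * v c ≤ v θ * 1 := by
        rw [← map_mul, ← hc, mul_one, hvθ]
        exact hy
      exact le_of_mul_le_mul_left h2 (by rw [hvθ]; exact exp_pos)
    have e1 : (y - 1) ^ 2 + 3 * (m + 1) = θ ^ 2 * (c ^ 2 - (m + 1)) := by
      rw [hc]
      linear_combination (m + 1) * hθ
    have h3 : v (c ^ 2 - (m + 1)) < 1 := by
      by_contra h4
      rw [not_lt] at h4
      rw [e1, map_mul, map_pow, hvθ] at hb
      have h5 : exp (-2 : ℤ) ≤ exp (-3 : ℤ) := by
        calc exp (-2 : ℤ) = exp (-1 : ℤ) ^ 2 * 1 := by rw [mul_one]; rfl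
          _ ≤ exp (-1 : ℤ) ^ 2 * v (c ^ 2 - (m + 1)) := mul_le_mul' le_rfl h4
          _ ≤ _ := hb
      rw [exp_le_exp] at h5
      norm_num at h5
    -- `c ^ 2 = 0` or `1` modulo `θ`
    rcases hres c hvc with h4 | h4 | h4
    · have e : (2 : L) = c * c - (c ^ 2 - (m + 1)) - (m - 1) := by ring
      have h5 : v (2 : L) < 1 := by
        rw [e]
        refine vsubl (vsubl ?_ h3) h1
        rw [map_mul]
        exact m2l h4 h4.le
      rw [v2] at h5
      exact lt_irrefl _ h5
    · have e : (1 : L) = (c - 1) * (c + 1) - (c ^ 2 - (m + 1)) - (m - 1) := by ring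
      have h5 : v (1 : L) < 1 := by
        rw [e]
        refine vsubl (vsubl ?_ h3) h1
        rw [map_mul]
        exact m2l h4 (vadd hvc (by rw [map_one]))
      rw [map_one] at h5
      exact lt_irrefl _ h5
    · have e : (1 : L) = (c + 1) * (c - 1) - (c ^ 2 - (m + 1)) - (m - 1) := by ring
      have h5 : v (1 : L) < 1 := by
        rw [e]
        refine vsubl (vsubl ?_ h3) h1
        rw [map_mul]
        exact m2l h4 (vsub hvc (by rw [map_one]))
      rw [map_one] at h5
      exact lt_irrefl _ h5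
  · -- `m = -1`
    have h1e : v (m + 1) ≤ exp (-1 : ℤ) := lt_one_iff.1 h1
    have h3m : v (3 * (m + 1)) ≤ exp (-3 : ℤ) := vle (vmul v3.le h1e) (by norm_num)
    have hy2 : ∀ {P : (ED D).toAffine.Point} {x y : L}, At P x y → P ∉ H →
        v (y - 1) ≤ exp (-2 : ℤ) := by
      intro P x y hA hP
      have hb := heb hA hP
      have h2 : v ((y - 1) ^ 2) ≤ exp (-3 : ℤ) := by
        have e : (y - 1) ^ 2 = ((y - 1) ^ 2 + 3 * (m + 1)) - 3 * (m + 1) := by ring
        rw [e]
        exact vsub hb h3m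
      exact sq_le h2 (by norm_num)
    have hx1 : ∀ {x : L}, v (x + 1) ≤ exp (-1 : ℤ) → v x = 1 := by
      intro x hx
      have e : x = -1 + (x + 1) := by ring
      rw [e, Valuation.map_add_eq_of_lt_left v (by
        rw [Valuation.map_neg, map_one]; exact lt_one_iff.2 hx), Valuation.map_neg, map_one]
    -- a sum with integral inverse slope is of nonsingular reduction
    have hslope : ∀ {P : (ED D).toAffine.Point} {l x x' y3 : L}, At P (l ^ 2 - x - x') y3 →
        1 ≤ v l → v (x + 1) ≤ exp (-1 : ℤ) → v (x' + 1) ≤ exp (-1 : ℤ) → P ∈ H := by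
      intro P l x x' y3 hA hl hx hx'
      by_contra hcon
      obtain ⟨h2, -, -⟩ := hsing hA hcon
      have e : l ^ 2 = (l ^ 2 - x - x' + 1) + (x + 1) + (x' + 1) - 3 := by ring
      have h3 : v (l ^ 2) < 1 := by
        rw [e]
        exact vsubl (vaddl (vaddl (lt_one_iff.2 h2) (lt_one_iff.2 hx)) (lt_one_iff.2 hx')) v3l
      rw [map_pow] at h3
      exact absurd h3 (not_lt.2 (one_le_pow₀ hl))
    have hdbl : ∀ {P : (ED D).toAffine.Point}, P ∉ H → P + P ∈ H := by
      intro P hP
      obtain ⟨x, y, hA⟩ := not_mem_at hP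
      obtain ⟨hx, -, -⟩ := hsing hA hP
      have hy := hy2 hA hP
      by_cases hy0 : 2 * y + D = 0
      · have h2 : -y - D = y := by linear_combination -hy0
        have h3 := hA.neg
        rw [h2] at h3
        have h4 : P = -P := hA.ext h3
        have h5 : P + P = 0 := by
          nth_rewrite 2 [h4]
          exact add_neg_cancel P
        rw [h5]
        exact zero_mem _
      · obtain ⟨y3, h3⟩ := hA.dbl hy0
        refine hslope h3 ?_ hx hx
        refine div_ge (k := -2) ?_ ?_ hy0
        · rw [map_mul, map_pow, hx1 hx, one_pow, mul_one, v3]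
        · have e : 2 * y + D = 2 * (y - 1) + 3 * (m + 1) := by rw [hD]; ring
          rw [e]
          refine vadd ?_ (vle h3m (by norm_num))
          rw [map_mul, v2, one_mul]
          exact hy
    have hadd : ∀ {P Q : (ED D).toAffine.Point} {x y x' y' : L}, At P x y → At Q x' y' →
        P ∉ H → Q ∉ H → v (x - x') ≤ exp (-2 : ℤ) → P - Q ∈ H := by
      intro P Q x y x' y' hA hA' hP hQ hxx'
      have hPQ : P + Q ∈ H → P - Q ∈ H := by
        intro h
        have e : P - Q = (P + Q) - (Q + Q) := by abel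
        rw [e]
        exact sub_mem h (hdbl hQ)
      obtain ⟨hx, -, -⟩ := hsing hA hP
      obtain ⟨hx', -, -⟩ := hsing hA' hQ
      have hy := hy2 hA hP
      have hy' := hy2 hA' hQ
      have he := hA.eqn
      have he' := hA'.eqn
      by_cases hxx : x = x'
      · subst hxx
        have e1 : (y - y') * (y + y' + D) = 0 := by linear_combination he - he'
        rcases mul_eq_zero.1 e1 with h | h
        · have h1 : y = y' := sub_eq_zero.1 h
          subst h1
          rw [hA.ext hA', sub_self]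
          exact zero_mem _
        · apply hPQ
          have h1 : y = -y' - D := by linear_combination h
          rw [h1] at hA
          rw [hA.ext hA'.neg, neg_add_cancel]
          exact zero_mem _
      · apply hPQ
        obtain ⟨y3, h3⟩ := hA.add hA' hxx
        refine hslope h3 ?_ hx hx'
        have hxx0 : x - x' ≠ 0 := sub_ne_zero.2 hxx
        have vx : v x = 1 := hx1 hx
        have hq : v (x ^ 2 + x * x' + x' ^ 2) = exp (-2 : ℤ) := by
          have e : x ^ 2 + x * x' + x' ^ 2 = 3 * x ^ 2 + (x - x') * ((x - x') - 3 * x) := by ring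
          have h4 : v (3 * x ^ 2) = exp (-2 : ℤ) := by
            rw [map_mul, map_pow, vx, one_pow, mul_one, v3]
          have h5 : v ((x - x') * ((x - x') - 3 * x)) < v (3 * x ^ 2) := by
            rw [h4]
            have h6 : v ((x - x') - 3 * x) ≤ exp (-2 : ℤ) := by
              refine vsub hxx' ?_
              rw [map_mul, vx, mul_one, v3]
            refine lt_of_le_of_lt (vmul hxx' h6) ?_
            rw [exp_lt_exp]
            norm_num
          rw [e, Valuation.map_add_eq_of_lt_left v h5, h4]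
        have hs : v (y + y' + D) ≤ exp (-2 : ℤ) := by
          have e : y + y' + D = (y - 1) + (y' - 1) + 3 * (m + 1) := by rw [hD]; ring
          rw [e]
          exact vadd (vadd hy hy') (vle h3m (by norm_num))
        have hprod : (y - y') * (y + y' + D) = (x - x') * (x ^ 2 + x * x' + x' ^ 2) := by
          linear_combination he - he'
        have hs0 : y + y' + D ≠ 0 := by
          intro h0
          rw [h0, mul_zero] at hprod
          rcases mul_eq_zero.1 hprod.symm with h | h
          · exact hxx0 h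
          · rw [h, map_zero] at hq
            exact exp_ne_zero hq.symm
        have e : (y - y') / (x - x') = (x ^ 2 + x * x' + x' ^ 2) / (y + y' + D) := by
          rw [div_eq_div_iff hxx0 hs0, hprod]
          ring
        rw [e]
        exact div_ge hq hs hs0
    -- the classes
    have hcls : ∀ {P : (ED D).toAffine.Point}, P ∉ H → ∃ (k : Fin 3) (x y : L), At P x y ∧
        v ((x + 1) - θ * (![0, 1, -1] k)) ≤ exp (-2 : ℤ) := by
      intro P hP
      obtain ⟨x, y, hA⟩ := not_mem_at hP
      obtain ⟨hx, -, -⟩ := hsing hA hP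
      obtain ⟨c, hc⟩ : ∃ c, x + 1 = θ * c := ⟨(x + 1) / θ, by rw [mul_div_cancel₀ _ hθ0]⟩
      have hvc : v c ≤ 1 := by
        have h2 : v θ * v c ≤ v θ * 1 := by
          rw [← map_mul, ← hc, mul_one, hvθ]
          exact hx
        exact le_of_mul_le_mul_left h2 (by rw [hvθ]; exact exp_pos)
      have key : ∀ t : L, v (c - t) < 1 → v ((x + 1) - θ * t) ≤ exp (-2 : ℤ) := by
        intro t ht
        rw [hc, ← mul_sub]
        exact vle (vmul hvθ.le (lt_one_iff.1 ht)) (by norm_num)
      rcases hres c hvc with h4 | h4 | h4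
      · exact ⟨0, x, y, hA, key 0 (by rwa [sub_zero])⟩
      · exact ⟨1, x, y, hA, key 1 h4⟩
      · exact ⟨2, x, y, hA, key (-1) (by rwa [sub_neg_eq_add])⟩
    have hclt : ∀ q : (ED D).toAffine.Point ⧸ H, ∃ P : (ED D).toAffine.Point,
        (QuotientAddGroup.mk P : (ED D).toAffine.Point ⧸ H) = q :=
      fun q => QuotientAddGroup.mk_surjective q
    choose rp hrp using hclt
    have hF : ∀ q : (ED D).toAffine.Point ⧸ H, ∃ o : Option (Fin 3),
        (rp q ∈ H ∧ o = none) ∨ (rp q ∉ H ∧ ∃ (k : Fin 3) (x y : L), o = some k ∧ At (rp q) x y ∧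
          v ((x + 1) - θ * (![0, 1, -1] k)) ≤ exp (-2 : ℤ)) := by
      intro q
      by_cases h : rp q ∈ H
      · exact ⟨none, Or.inl ⟨h, rfl⟩⟩
      · obtain ⟨k, x, y, h2, h3⟩ := hcls h
        exact ⟨some k, Or.inr ⟨h, k, x, y, rfl, h2, h3⟩⟩
    choose F hF using hF
    have hinj : Function.Injective F := by
      intro q q' hqq
      have h2 : rp q - rp q' ∈ H := by
        rcases hF q with ⟨h3, h4⟩ | ⟨h3, k, x, y, h4, h5, h6⟩
        · rcases hF q' with ⟨h3', h4'⟩ | ⟨h3', k', x', y', h4', h5', h6'⟩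
          · exact sub_mem h3 h3'
          · rw [h4, h4'] at hqq
            exact absurd hqq (by simp)
        · rcases hF q' with ⟨h3', h4'⟩ | ⟨h3', k', x', y', h4', h5', h6'⟩
          · rw [h4, h4'] at hqq
            exact absurd hqq (by simp)
          · rw [h4, h4'] at hqq
            have hkk : k = k' := Option.some_injective _ hqq
            subst hkk
            refine hadd h5 h5' h3 h3' ?_
            have e : x - x' = ((x + 1) - θ * (![0, 1, -1] k)) -
                ((x' + 1) - θ * (![0, 1, -1] k)) := by ring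
            rw [e]
            exact vsub h6 h6'
      rw [← hrp q, ← hrp q', ← sub_eq_zero, ← QuotientAddGroup.mk_sub]
      exact (QuotientAddGroup.eq_zero_iff _).2 h2
    have hfin : Finite ((ED D).toAffine.Point ⧸ H) := Finite.of_injective F hinj
    have hcard : Nat.card ((ED D).toAffine.Point ⧸ H) ≤ 4 := by
      refine (Nat.card_le_card_of_injective F hinj).trans ?_
      simp
    refine card_two hcard fun q => ?_
    rw [← hrp q, ← QuotientAddGroup.mk_add]
    apply (QuotientAddGroup.eq_zero_iff _).2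
    by_cases h : rp q ∈ H
    · exact add_mem h h
    · exact hdbl h

end Pool.Agent.Y350.CTK
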