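import Pool.Agent.Y696.CTK.Stm
import Pool.Agent.Y692.CT.Desq

/-!
# CTK-MW: the group of the points of `y² + D y = x³` over `K`
-/

set_option autoImplicit false

namespace Pool.Agent.Y350.CTK

open WeierstrassCurve
open Pool.Agent.Y703.CT
open Pool.Agent.Y692.QS (Ei w nr toC)
open Pool.Agent.Y715.T.Gi Pool.Agent.Y715.T.Nr Pool.Agent.Y715.T.Df Pool.Agent.Y715.T.Ell
open Pool.Agent.Y696.CTK

open scoped Classical

namespace Mw

open Pool.Agent.TH841.SH.D (Gal)

variable {k : Type} [Field k]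

/-- composition of the maps on the points -/
lemma act_act (W : WeierstrassCurve k) {F L M : Type} [Field F] [Field L] [Field M] [Algebra k F]
    [Algebra k L] [Algebra k M] (φ : F →ₐ[k] L) (ψ : L →ₐ[k] M)
    (P : Pool.Agent.TH841.SH.D.Pt W F) :
    Pool.Agent.TH841.SH.D.act W ψ (Pool.Agent.TH841.SH.D.act W φ P) =
      Pool.Agent.TH841.SH.D.act W (ψ.comp φ) P := by
  rcases P with _ | ⟨x, y, h⟩
  · rfl
  · rfl

lemma act_inj (W : WeierstrassCurve k) {F L : Type} [Field F] [Field L] [Algebra k F]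
    [Algebra k L] (φ : F →ₐ[k] L) : Function.Injective (Pool.Agent.TH841.SH.D.act W φ) :=
  @Affine.Point.map_injective k k F L _ _ _ _ W (Classical.decEq F) (Classical.decEq L)
    _ _ _ _ _ _ _ φ

lemma act_some (W : WeierstrassCurve k) {F L : Type} [Field F] [Field L] [Algebra k F]
    [Algebra k L] (φ : F →ₐ[k] L) {x y : F}
    (h : (W.baseChange F).toAffine.Nonsingular x y) :
    Pool.Agent.TH841.SH.D.act W φ (Affine.Point.some x y h) =
      Affine.Point.some (φ x) (φ y) ((Affine.baseChange_nonsingular W φ.injective ..).mpr h) := rfl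

lemma nons (D : k) (hD : D ≠ 0) : ((ED D).baseChange k).toAffine.Nonsingular 0 0 := by
  rw [Affine.nonsingular_iff, Affine.equation_iff]
  have h1 : ((ED D).baseChange k).a₁ = 0 := rfl
  have h2 : ((ED D).baseChange k).a₂ = 0 := rfl
  have h3 : ((ED D).baseChange k).a₃ = D := rfl
  have h4 : ((ED D).baseChange k).a₄ = 0 := rfl
  have h6 : ((ED D).baseChange k).a₆ = 0 := rfl
  refine ⟨?_, Or.inr ?_⟩
  · show (0 : k) ^ 2 + ((ED D).baseChange k).a₁ * 0 * 0 + ((ED D).baseChange k).a₃ * 0 =
      0 ^ 3 + ((ED D).baseChange k).a₂ * 0 ^ 2 + ((ED D).baseChange k).a₄ * 0 +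
        ((ED D).baseChange k).a₆
    rw [h1, h2, h3, h4, h6]
    ring
  · show (0 : k) ≠ -0 - ((ED D).baseChange k).a₁ * 0 - ((ED D).baseChange k).a₃
    rw [h1, h3]
    intro h
    apply hD
    linear_combination h

end Mw

open Mw in
/-- **CTK-MW** -/
theorem mw : S_MWT := by
  intro hT K _ _ j D hD hM
  obtain ⟨e, i₀, hi, u, a, Ψ, g, hTw, -, -, -, -, hΨ, hact⟩ := hT K j D hD
  obtain ⟨hfin0, htor⟩ := hM i₀ hi u a hTw
  let φ : K →ₐ[K] AlgebraicClosure K := Algebra.ofId K (AlgebraicClosure K)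
  let em : Pool.Agent.TH841.SH.D.Pt (ED (j D : K)) K →+ Pt QB :=
    Ψ.toAddMonoidHom.comp (Pool.Agent.TH841.SH.D.act (ED (j D : K)) φ)
  have hinj : Function.Injective em := Ψ.injective.comp (act_inj _ φ)
  have hfix : ∀ (P : Pool.Agent.TH841.SH.D.Pt (ED (j D : K)) K) (σ : GK i₀),
      Pool.Agent.Y703.CT.act hi a σ (em P) = em P := by
    intro P σ
    have h1 := hact (g.symm σ) (Pool.Agent.TH841.SH.D.act (ED (j D : K)) φ P)
    rw [g.apply_symm_apply] at h1
    refine h1.symm.trans ?_
    rw [act_act]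
    have h2 : ((g.symm σ).toAlgHom).comp φ = φ := by
      refine AlgHom.ext fun x => ?_
      exact (g.symm σ).commutes x
    rw [h2]
    rfl
  have hDK : (j D : K) ≠ 0 := by
    intro h
    have h1 : j D = 0 := by
      apply NumberField.RingOfIntegers.ext
      exact h
    exact hD ((map_eq_zero_iff j j.injective).1 h1)
  let TK : Pool.Agent.TH841.SH.D.Pt (ED (j D : K)) K := Affine.Point.some 0 0 (nons _ hDK)
  have hemT : em TK = T0 (isE QB) := by
    have h1 : em TK = Ψ (Affine.Point.some (φ 0) (φ 0)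
      ((Affine.baseChange_nonsingular (ED (j D : K)) φ.injective ..).mpr (nons _ hDK))) := rfl
    obtain ⟨h', h2⟩ := hΨ (φ 0) (φ 0)
      ((Affine.baseChange_nonsingular (ED (j D : K)) φ.injective ..).mpr (nons _ hDK))
    rw [h1, h2]
    unfold T0
    rw [Affine.Point.some.injEq]
    exact ⟨by rw [map_zero, map_zero, zero_div], by rw [map_zero, map_zero, zero_div]⟩
  have hT0 : TK ≠ 0 := Affine.Point.some_ne_zero _
  have h3 : 3 • TK = 0 := by
    apply hinj
    rw [map_nsmul, hemT, map_zero]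
    exact T0_add3 (isE QB)
  have hfin : Finite (Pool.Agent.TH841.SH.D.Pt (ED (j D : K)) K) := by
    have hf := hfin0.to_subtype
    refine Finite.of_injective (fun P : Pool.Agent.TH841.SH.D.Pt (ED (j D : K)) K =>
      (⟨em P, fun σ => hfix P σ⟩ :
        {P : Pt QB // P ∈ {P : Pt QB | ∀ σ : GK i₀, Pool.Agent.Y703.CT.act hi a σ P = P}})) ?_
    intro P Q h
    exact hinj (congrArg Subtype.val h)
  have hpv := Pool.Agent.Y692.CT.pv TK hT0 h3 (by
    intro P hP
    have h1 : 3 ^ 2 • em P = 0 := by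
      have h2 : em (9 • P) = 9 • em P := map_nsmul _ _ _
      rw [hP, map_zero] at h2
      exact h2.symm
    rcases htor _ (fun σ => hfix P σ) 2 h1 with h2 | h2 | h2
    · left
      apply hinj
      rw [map_zero]
      exact h2
    · right; left
      apply hinj
      rw [hemT]
      exact h2
    · right; right
      apply hinj
      rw [map_neg, hemT]
      exact h2)
  exact ⟨hfin, hpv⟩

end Pool.Agent.Y350.CTK
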