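import Pool.Agent.Y696.CTK.Stm
import Pool.Agent.H723R3.EuclidLocal
import Pool.Agent.Y715.T.Rs

/-!
# CTK-TAM: the Tamagawa numbers of `y² + D y = x³` over `K`
-/

set_option autoImplicit false
set_option linter.unusedSectionVars false

namespace Pool.Agent.Y350.CTK

open scoped Classical

open NumberField IsDedekindDomain WeierstrassCurve WithZero
open Pool.Agent.Y692.QS (Ei w nr toC)
open Pool.Agent.Y715.T.RecG (Pq)
open Pool.Agent.Y703.CT
open Pool.Agent.Y696 (NonsingRed)
open Pool.Agent.Y696.CTK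

namespace Tam

/-! ### The Eisenstein integers -/

section ei

/-- the square root of `-3` -/
def te : Ei := ⟨1, 2⟩

lemma te_sq : te ^ 2 = -3 := by decide

lemma nr_te : nr te = 3 := by decide

lemma te_prime : Prime te := by
  have hirr : Irreducible te := by
    refine ⟨?_, ?_⟩
    · rw [Pool.Agent.Y692.QS.isUnit_iff, nr_te]
      norm_num
    · intro a b hab
      have h1 : nr a * nr b = 3 := by
        rw [← Pool.Agent.Y692.QS.nr_mul, ← hab, nr_te]
      have ha := Pool.Agent.Y692.QS.nr_nonneg a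
      have hb := Pool.Agent.Y692.QS.nr_nonneg b
      rw [Pool.Agent.Y692.QS.isUnit_iff, Pool.Agent.Y692.QS.isUnit_iff]
      have h2 : nr a ∣ 3 := ⟨_, h1.symm⟩
      have h3 : nr a ≤ 3 := Int.le_of_dvd (by norm_num) h2
      have h4 : nr a = 0 ∨ nr a = 1 ∨ nr a = 2 ∨ nr a = 3 := by omega
      rcases h4 with h | h | h | h <;> rw [h] at h1
      · norm_num at h1
      · exact Or.inl h
      · omega
      · right; omega
  exact hirr.prime

/-- elements modulo the prime above three -/
lemma te_mod (a : Ei) : te ∣ a ∨ te ∣ a - 1 ∨ te ∣ a + 1 := by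
  have key : ∀ (k e : ℤ), a.re + a.im = e + 3 * k → te ∣ a - (e : Ei) := by
    intro k e h
    refine ⟨⟨a.im - k, a.im - 2 * k⟩, ?_⟩
    ext
    · rw [Pool.Agent.Y692.QS.mul_re, QuadraticAlgebra.re_sub, QuadraticAlgebra.re_intCast]
      show a.re - e = 1 * (a.im - k) - 2 * (a.im - 2 * k)
      linarith
    · rw [Pool.Agent.Y692.QS.mul_im, QuadraticAlgebra.im_sub, QuadraticAlgebra.im_intCast]
      show a.im - 0 = 1 * (a.im - 2 * k) + 2 * (a.im - k) - 2 * (a.im - 2 * k)
      ring
  have h1 : (a.re + a.im) % 3 = 0 ∨ (a.re + a.im) % 3 = 1 ∨ (a.re + a.im) % 3 = 2 := by omega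
  rcases h1 with h | h | h
  · left
    have := key ((a.re + a.im) / 3) 0 (by omega)
    rwa [Int.cast_zero, sub_zero] at this
  · right; left
    have := key ((a.re + a.im) / 3) 1 (by omega)
    rwa [Int.cast_one] at this
  · right; right
    have := key ((a.re + a.im) / 3 + 1) (-1) (by omega)
    rwa [Int.cast_neg, Int.cast_one, sub_neg_eq_add] at this

lemma te_m {m : Ei} (h9 : ¬ (9 : ℤ) ∣ nr (1 + 3 * m) - 1) : ¬ te ∣ m := by
  rintro ⟨q, rfl⟩
  apply h9
  have e1 : (1 + 3 * (te * q) : Ei) = ⟨1 + 3 * (q.re - 2 * q.im), 3 * (2 * q.re - q.im)⟩ := by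
    have h3 : (3 : Ei) = ⟨3, 0⟩ := by rfl
    have h1 : (1 : Ei) = ⟨1, 0⟩ := by rfl
    ext
    · rw [QuadraticAlgebra.re_add, Pool.Agent.Y692.QS.mul_re, Pool.Agent.Y692.QS.mul_re, h3, h1]
      show (1 : ℤ) + (3 * (1 * q.re - 2 * q.im) - 0 * (te * q).im) = _
      ring
    · rw [QuadraticAlgebra.im_add, Pool.Agent.Y692.QS.mul_im, Pool.Agent.Y692.QS.mul_im, h3, h1]
      show (0 : ℤ) + (3 * (1 * q.im + 2 * q.re - 2 * q.im) + 0 * (te * q).re -
        0 * (1 * q.im + 2 * q.re - 2 * q.im)) = _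
      ring
  rw [e1]
  show (9 : ℤ) ∣ (1 + 3 * (q.re - 2 * q.im)) ^ 2 -
    (1 + 3 * (q.re - 2 * q.im)) * (3 * (2 * q.re - q.im)) + (3 * (2 * q.re - q.im)) ^ 2 - 1
  exact ⟨-q.im + (q.re - 2 * q.im) ^ 2 - (q.re - 2 * q.im) * (2 * q.re - q.im) +
    (2 * q.re - q.im) ^ 2, by ring⟩

variable {J : Type} [Fintype J] {π : J → Ei}

lemma pD_eq : pD π (fun _ => 1) = ∏ i, π i := by
  unfold pD
  refine Finset.prod_congr rfl fun i _ => ?_
  have : (1 : ZMod 3).val = 1 := by decide
  rw [this, pow_one]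

lemma three_dvd (h : Dt π (fun _ => 1)) : (3 : Ei) ∣ pD π (fun _ => 1) - 1 := by
  rw [pD_eq]
  have : ∀ s : Finset J, (3 : Ei) ∣ ∏ i ∈ s, π i - 1 := by
    intro s
    induction s using Finset.induction_on with
    | empty => simp
    | insert a s ha ih =>
      rw [Finset.prod_insert ha]
      have e : π a * ∏ i ∈ s, π i - 1 = π a * (∏ i ∈ s, π i - 1) + (π a - 1) := by ring
      rw [e]
      exact dvd_add (Dvd.dvd.mul_left ih _) (h.pq a).three
  exact this Finset.univ

lemma sqf (h : Dt π (fun _ => 1)) : Squarefree (pD π (fun _ => 1)) := by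
  rw [pD_eq]
  refine Finset.squarefree_prod_of_pairwise_isCoprime ?_ fun i _ => (h.pq i).prime.squarefree
  intro a _ b _ hab
  exact ((h.pq a).prime.irreducible.isRelPrime_iff_not_dvd).2 (h.nd b a (Ne.symm hab))

end ei

/-! ### The places -/

section pl

variable {K : Type} [Field K] [NumberField K] (j : Ei ≃+* 𝓞 K)

/-- the place of a prime element -/
noncomputable def pl {p : Ei} (hp : Prime p) : HeightOneSpectrum (𝓞 K) where
  asIdeal := Ideal.span {j p}
  isPrime := (Ideal.span_singleton_prime ((map_ne_zero_iff j j.injective).2 hp.ne_zero)).2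
    ((MulEquiv.prime_iff j).2 hp)
  ne_bot := by
    rw [Ne, Ideal.span_singleton_eq_bot]
    exact (map_ne_zero_iff j j.injective).2 hp.ne_zero

lemma mem_pl {p : Ei} (hp : Prime p) (x : Ei) : j x ∈ (pl j hp).asIdeal ↔ p ∣ x := by
  show j x ∈ Ideal.span {j p} ↔ _
  rw [Ideal.mem_span_singleton]
  exact map_dvd_iff j

lemma eq_pl {p : Ei} (hp : Prime p) {v : HeightOneSpectrum (𝓞 K)} (h : j p ∈ v.asIdeal) :
    v = pl j hp := by
  apply HeightOneSpectrum.ext
  have h1 : (pl j hp).asIdeal ≤ v.asIdeal := by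
    show Ideal.span {j p} ≤ v.asIdeal
    rw [Ideal.span_singleton_le_iff_mem]
    exact h
  exact ((pl j hp).isMaximal.eq_of_le v.isPrime.ne_top h1).symm

lemma pl_val {p : Ei} (hp : Prime p) : (pl j hp).intValuation (j p) = exp (-1 : ℤ) :=
  HeightOneSpectrum.intValuation_singleton _ ((map_ne_zero_iff j j.injective).2 hp.ne_zero) rfl

lemma val_one (v : HeightOneSpectrum (𝓞 K)) {x : 𝓞 K} (h : x ∉ v.asIdeal) :
    Valued.v (algebraMap K (v.adicCompletion K) (x : K)) = 1 := by
  rw [Pool.Agent.H723R3.valued_algebraMap]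
  exact (HeightOneSpectrum.valuation_of_algebraMap v x).trans
    (HeightOneSpectrum.intValuation_eq_one_iff.2 h)

lemma val_eq (v : HeightOneSpectrum (𝓞 K)) (x : 𝓞 K) :
    Valued.v (algebraMap K (v.adicCompletion K) (x : K)) = v.intValuation x := by
  rw [Pool.Agent.H723R3.valued_algebraMap]
  exact HeightOneSpectrum.valuation_of_algebraMap v x

lemma val_lt (v : HeightOneSpectrum (𝓞 K)) {x : 𝓞 K} (h : x ∈ v.asIdeal) :
    Valued.v (algebraMap K (v.adicCompletion K) (x : K)) < 1 := by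
  rw [val_eq]
  exact (v.intValuation_lt_one_iff_mem x).2 h

lemma three_eq (v : HeightOneSpectrum (𝓞 K)) :
    (3 : v.adicCompletion K) = algebraMap K (v.adicCompletion K) ((j 3 : 𝓞 K) : K) := by
  have h1 : ((j 3 : 𝓞 K) : K) = 3 := by
    rw [map_ofNat]
    rfl
  rw [h1, map_ofNat]

/-- three is in only one place -/
lemma three_mem {v : HeightOneSpectrum (𝓞 K)} (h : j 3 ∈ v.asIdeal) : v = pl j te_prime := by
  apply eq_pl
  have h1 : (j te) ^ 2 ∈ v.asIdeal := by
    rw [← map_pow, te_sq, map_neg]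
    exact v.asIdeal.neg_mem h
  exact v.isPrime.mem_of_pow_mem 2 h1

variable {J : Type} [Fintype J] {π : J → Ei}

lemma val_D_one {v : HeightOneSpectrum (𝓞 K)} (h : ∀ i, j (π i) ∉ v.asIdeal) :
    Valued.v (algebraMap K (v.adicCompletion K) ((j (pD π (fun _ => 1)) : 𝓞 K) : K)) = 1 := by
  rw [val_eq, pD_eq, map_prod, map_prod]
  exact Finset.prod_eq_one fun i _ => HeightOneSpectrum.intValuation_eq_one_iff.2 (h i)

lemma val_D_exp (hD : Dt π (fun _ => 1)) (i : J) :
    Valued.v (algebraMap K ((pl j (hD.pq i).prime).adicCompletion K)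
      ((j (pD π (fun _ => 1)) : 𝓞 K) : K)) = exp (-1 : ℤ) := by
  rw [val_eq, pD_eq, map_prod, map_prod, Finset.prod_eq_single i, pl_val]
  · intro k _ hk
    rw [HeightOneSpectrum.intValuation_eq_one_iff, mem_pl]
    exact hD.nd k i hk
  · intro h
    exact absurd (Finset.mem_univ i) h

lemma pl_inj (hD : Dt π (fun _ => 1)) :
    Function.Injective fun i => pl j (hD.pq i).prime := by
  intro a b h
  by_contra hab
  have h1 : j (π a) ∈ (pl j (hD.pq b).prime).asIdeal := by
    have h2 : pl j (hD.pq a).prime = pl j (hD.pq b).prime := h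
    rw [← h2, mem_pl]
  rw [mem_pl] at h1
  exact hD.nd a b hab h1

lemma pl_three (hD : Dt π (fun _ => 1)) (i : J) : j 3 ∉ (pl j (hD.pq i).prime).asIdeal := by
  rw [mem_pl]
  exact (hD.pq i).norm

end pl

/-! ### The indices -/

section idx

variable {L : Type} [Field L]

lemma bc_ED {K : Type} [Field K] [Algebra K L] (D : K) :
    (ED D).baseChange L = ED (algebraMap K L D) := by
  unfold ED
  ext
  · exact map_zero _
  · exact map_zero _
  · rfl
  · exact map_zero _
  · exact map_zero _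

lemma ED_delta (D : L) : (ED D).Δ = -27 * D ^ 4 := by
  unfold ED WeierstrassCurve.Δ WeierstrassCurve.b₂ WeierstrassCurve.b₄ WeierstrassCurve.b₆
    WeierstrassCurve.b₈
  ring

lemma sub_ex (hE : S_E0K) (v : Valuation L ℤᵐ⁰) {W : WeierstrassCurve L} {D : L} (hW : W = ED D)
    (h : (27 : L) * D ^ 4 ≠ 0) (hv : v D ≤ 1) :
    ∃ H : AddSubgroup W.toAffine.Point, ∀ P, P ∈ H ↔ NonsingRed v W P := by
  subst hW
  apply hE
  · rw [ED_delta]
    intro h1
    apply h
    linear_combination -h1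
  · show v 0 ≤ 1
    rw [map_zero]; exact zero_le
  · show v 0 ≤ 1
    rw [map_zero]; exact zero_le
  · exact hv
  · show v 0 ≤ 1
    rw [map_zero]; exact zero_le
  · show v 0 ≤ 1
    rw [map_zero]; exact zero_le

lemma idx_one (hG : S_TGK) (v : Valuation L ℤᵐ⁰) {W : WeierstrassCurve L} {D : L} (hW : W = ED D)
    (h3 : v 3 = 1) (hv : v D = 1) (H : AddSubgroup W.toAffine.Point)
    (hH : ∀ P, P ∈ H ↔ NonsingRed v W P) : H.index = 1 := by
  subst hW
  rw [AddSubgroup.index_eq_one, eq_top_iff]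
  intro P _
  exact (hH P).2 (hG L v D h3 hv P)

lemma idx_three (hT : S_TDK) (v : Valuation L ℤᵐ⁰) {W : WeierstrassCurve L} {D : L}
    (hW : W = ED D) (h3 : v 3 = 1) (hv : v D = exp (-1 : ℤ)) (H : AddSubgroup W.toAffine.Point)
    (hH : ∀ P, P ∈ H ↔ NonsingRed v W P) : H.index = 3 := by
  subst hW
  exact hT L v D h3 hv H hH

lemma idx_t (hT : S_T3K) (v : Valuation L ℤᵐ⁰) {W : WeierstrassCurve L} {D : L}
    (hW : W = ED D) {θ m : L} (h1 : θ ^ 2 = -3) (h2 : v θ = exp (-1 : ℤ)) (h3 : D = 1 + 3 * m)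
    (h4 : v m = 1) (h5 : ∀ x : L, v x ≤ 1 → v x < 1 ∨ v (x - 1) < 1 ∨ v (x + 1) < 1)
    (H : AddSubgroup W.toAffine.Point)
    (hH : ∀ P, P ∈ H ↔ NonsingRed v W P) : H.index = 1 ∨ H.index = 2 ∨ H.index = 4 := by
  subst hW
  exact hT L v D θ m h1 h2 h3 h4 h5 H hH

end idx

section res

variable {K : Type} [Field K] [NumberField K] (j : Ei ≃+* 𝓞 K)

/-- the residue field at three -/
lemma res (x : (pl j te_prime).adicCompletion K) (hx : Valued.v x ≤ 1) :
    Valued.v x < 1 ∨ Valued.v (x - 1) < 1 ∨ Valued.v (x + 1) < 1 := by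
  obtain ⟨r, hr⟩ := Pool.Agent.H723R3.exists_approx_int (R := 𝓞 K) (K := K) (pl j te_prime)
    (ξ := x) hx 1
  rw [Units.val_one] at hr
  obtain ⟨a, rfl⟩ := j.surjective r
  have key : ∀ e : Ei, te ∣ a + e →
      Valued.v (x + algebraMap K ((pl j te_prime).adicCompletion K) ((j e : 𝓞 K) : K)) < 1 := by
    intro e he
    have h1 : Valued.v (algebraMap K ((pl j te_prime).adicCompletion K)
        ((j (a + e) : 𝓞 K) : K)) < 1 := val_lt _ ((mem_pl j te_prime _).2 he)
    have h2 : x + algebraMap K ((pl j te_prime).adicCompletion K) ((j e : 𝓞 K) : K) =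
        algebraMap K ((pl j te_prime).adicCompletion K) ((j (a + e) : 𝓞 K) : K) -
          (algebraMap (𝓞 K) ((pl j te_prime).adicCompletion K) (j a) - x) := by
      have h3 : algebraMap (𝓞 K) ((pl j te_prime).adicCompletion K) (j a) =
          algebraMap K ((pl j te_prime).adicCompletion K) ((j a : 𝓞 K) : K) :=
        IsScalarTower.algebraMap_apply (𝓞 K) K _ _
      have h4 : ((j (a + e) : 𝓞 K) : K) = ((j a : 𝓞 K) : K) + ((j e : 𝓞 K) : K) := by
        rw [map_add]
        rfl
      rw [h3, h4, map_add]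
      ring
    rw [h2]
    exact lt_of_le_of_lt (Valuation.map_sub _ _ _) (max_lt h1 hr)
  rcases te_mod a with h | h | h
  · left
    have := key 0 (by rwa [add_zero])
    have h0 : ((j 0 : 𝓞 K) : K) = 0 := by rw [map_zero]; rfl
    rwa [h0, map_zero, add_zero] at this
  · right; left
    have := key (-1) (by rwa [← sub_eq_add_neg])
    have h0 : ((j (-1) : 𝓞 K) : K) = -1 := by rw [map_neg, map_one]; rfl
    rwa [h0, map_neg, map_one, ← sub_eq_add_neg] at this
  · right; right
    have := key 1 h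
    have h0 : ((j 1 : 𝓞 K) : K) = 1 := by rw [map_one]; rfl
    rwa [h0, map_one] at this

end res

end Tam

open Tam in
/-- **CTK-TAM** -/
theorem tam : S_TAMK := by
  intro hMin hE hG hT hT3 K _ _ j J _ π hD h9
  have hD0 : pD π (fun _ => 1) ≠ 0 := (sqf hD).ne_zero
  have hjD0 : ((j (pD π (fun _ => 1)) : 𝓞 K) : K) ≠ 0 := by
    intro h
    have h1 : j (pD π (fun _ => 1)) = 0 := by
      apply RingOfIntegers.ext
      exact h
    exact hD0 ((map_eq_zero_iff j j.injective).1 h1)
  have hsub : ∀ v : HeightOneSpectrum (𝓞 K), ∃ H : AddSubgroup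
      ((ED (j (pD π (fun _ => 1)) : K)).baseChange (v.adicCompletion K)).toAffine.Point,
      ∀ P, P ∈ H ↔ NonsingRed Valued.v
        ((ED (j (pD π (fun _ => 1)) : K)).baseChange (v.adicCompletion K)) P := by
    intro v
    apply sub_ex hE Valued.v (bc_ED _)
    · have h1 : (27 : v.adicCompletion K) * (algebraMap K (v.adicCompletion K)
          ((j (pD π (fun _ => 1)) : 𝓞 K) : K)) ^ 4 = algebraMap K (v.adicCompletion K)
          (27 * ((j (pD π (fun _ => 1)) : 𝓞 K) : K) ^ 4) := by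
        rw [map_mul, map_pow, map_ofNat]
      rw [h1, map_ne_zero]
      exact mul_ne_zero (by norm_num) (pow_ne_zero _ hjD0)
    · rw [val_eq]
      exact v.intValuation_le_one _
  choose H hH using hsub
  -- the indices
  have hA : (H (pl j te_prime)).index = 1 ∨ (H (pl j te_prime)).index = 2 ∨
      (H (pl j te_prime)).index = 4 := by
    obtain ⟨m, hm⟩ := three_dvd hD
    have hm' : pD π (fun _ => 1) = 1 + 3 * m := by linear_combination hm
    refine idx_t hT3 Valued.v (bc_ED _)
      (θ := algebraMap K ((pl j te_prime).adicCompletion K) ((j te : 𝓞 K) : K))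
      (m := algebraMap K ((pl j te_prime).adicCompletion K) ((j m : 𝓞 K) : K)) ?_ ?_ ?_ ?_
      (res j) _ (hH _)
    · have h1 : ((j te : 𝓞 K) : K) ^ 2 = -3 := by
        have h2 : (j te) ^ 2 = -3 := by rw [← map_pow, te_sq, map_neg, map_ofNat]
        have h3 := congrArg (algebraMap (𝓞 K) K) h2
        rw [map_pow, map_neg, map_ofNat] at h3
        exact h3
      rw [← map_pow, h1, map_neg, map_ofNat]
    · rw [val_eq, pl_val]
    · have h1 : ((j (pD π (fun _ => 1)) : 𝓞 K) : K) = 1 + 3 * ((j m : 𝓞 K) : K) := by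
        have h2 : j (pD π (fun _ => 1)) = 1 + 3 * j m := by
          rw [hm', map_add, map_mul, map_one, map_ofNat]
        have h3 := congrArg (algebraMap (𝓞 K) K) h2
        rw [map_add, map_mul, map_one, map_ofNat] at h3
        exact h3
      rw [h1, map_add, map_mul, map_one, map_ofNat]
    · apply val_one
      rw [mem_pl]
      rw [hm'] at h9
      exact te_m h9
  have hB : ∀ i, (H (pl j (hD.pq i).prime)).index = 3 := by
    intro i
    refine idx_three hT Valued.v (bc_ED _) ?_ ?_ _ (hH _)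
    · rw [three_eq j]
      exact val_one _ (pl_three j hD i)
    · exact val_D_exp j hD i
  have hC : ∀ v : HeightOneSpectrum (𝓞 K), j 3 ∉ v.asIdeal → (∀ i, j (π i) ∉ v.asIdeal) →
      (H v).index = 1 := by
    intro v h3 hi
    refine idx_one hG Valued.v (bc_ED _) ?_ ?_ _ (hH _)
    · rw [three_eq j]
      exact val_one _ h3
    · exact val_D_one j hi
  -- the support
  have hsupp : Function.mulSupport (fun v => (H v).index) ⊆
      ((insert (pl j te_prime) (Finset.univ.image fun i => pl j (hD.pq i).prime) :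
        Finset (HeightOneSpectrum (𝓞 K))) : Set (HeightOneSpectrum (𝓞 K))) := by
    intro v hv
    rw [Function.mem_mulSupport] at hv
    by_contra hcon
    apply hv
    rw [Finset.mem_coe, Finset.mem_insert, Finset.mem_image, not_or] at hcon
    refine hC v (fun h => hcon.1 (three_mem j h)) fun i hi => hcon.2 ⟨i, Finset.mem_univ _, ?_⟩
    exact (eq_pl j (hD.pq i).prime hi).symm
  refine ⟨fun v => (H v).index, ⟨fun v => ⟨hMin K j _ (three_dvd hD) (sqf hD) v, H v, hH v, rfl⟩,
    ?_⟩, (H (pl j te_prime)).index, ?_, ?_⟩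
  · exact (Finset.finite_toSet _).subset hsupp
  · rcases hA with h | h | h <;> rw [h] <;> norm_num
  · rw [finprod_eq_prod_of_mulSupport_subset _ hsupp, Finset.prod_insert, Finset.prod_image]
    · rw [Finset.prod_congr rfl fun i _ => hB i, Finset.prod_const, Finset.card_univ]
      ring
    · intro a _ b _ h
      exact pl_inj j hD h
    · intro h
      rw [Finset.mem_image] at h
      obtain ⟨i, -, hi⟩ := h
      apply pl_three j hD i
      rw [hi, mem_pl]
      exact ⟨-te, by linear_combination te_sq⟩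

end Pool.Agent.Y350.CTK
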